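import Mathlib
import Pool.Agent.H.MP_3b70de_al.A

set_option autoImplicit false

namespace Pool.Agent.Results.MP_3b70de_al.No

/-- The defining relations of the isomorphism game algebra. -/
structure Rel {V W : Type} [Fintype V] [Fintype W] (G : SimpleGraph V) (H : SimpleGraph W)
    {A : Type*} [CStarAlgebra A] (p : V → W → A) : Prop where
  idem : ∀ g h, p g h * p g h = p g h
  sa : ∀ g h, star (p g h) = p g h
  row : ∀ g, ∑ h, p g h = 1
  col : ∀ h, ∑ g, p g h = 1
  orth : ∀ g h g' h', ¬ ((g = g' ↔ h = h') ∧ (G.Adj g g' ↔ H.Adj h h')) → p g h * p g' h' = 0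

/-- `A` with the generators `p` is the isomorphism game algebra of `G` and `H`. -/
structure IsGame {V W : Type} [Fintype V] [Fintype W] (G : SimpleGraph V) (H : SimpleGraph W)
    {A : Type*} [CStarAlgebra A] (p : V → W → A) : Prop where
  rel : Rel G H p
  dense : Dense (StarAlgebra.adjoin ℂ {a | ∃ g h, a = p g h} : Set A)
  univ : ∀ (C : Type) [CStarAlgebra C] (q : V → W → C), Rel G H q →
    ∃ φ : A →⋆ₐ[ℂ] C, ∀ g h, φ (p g h) = q g h

/-- `B` with the unitaries `u g` is the full group C*-algebra of `Γ`. -/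
structure IsFull (Γ : Type) [Group Γ] {B : Type*} [CStarAlgebra B] (u : Γ →* unitary B) : Prop where
  dense : Dense (Submodule.span ℂ (Set.range fun g => (u g : B)) : Set B)
  univ : ∀ (C : Type) [CStarAlgebra C] (v : Γ →* unitary C),
    ∃ φ : B →⋆ₐ[ℂ] C, ∀ g, φ (u g) = v g

open FreeGroup in
/-- Relators of the solution group; `none` is `J` and `some i` is `g_i`. -/
def rels {m n : ℕ} (M : Matrix (Fin m) (Fin n) (ZMod 2)) (b : Fin m → ZMod 2) :
    Set (FreeGroup (Option (Fin n))) :=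
  {r | (∃ a, r = of a ^ 2) ∨ (∃ i, r = of none * of (some i) * (of (some i) * of none)⁻¹) ∨
    (∃ k i j, M k i = 1 ∧ M k j = 1 ∧
      r = of (some i) * of (some j) * (of (some j) * of (some i))⁻¹) ∨
    ∃ k, r = (List.ofFn fun i => of (some i) ^ (M k i).val).prod * (of none ^ (b k).val)⁻¹}

open Pool.Agent.H.MP_3b70de_al in
theorem result : ∃ G H : SimpleGraph (Fin 6 × Fin 4),
    ∀ (A : Type*) [CStarAlgebra A] (p : Fin 6 × Fin 4 → Fin 6 × Fin 4 → A), IsGame G H p →
      Nontrivial A ∧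
      ∀ (m n : ℕ) (M : Matrix (Fin m) (Fin n) (ZMod 2)) (b : Fin m → ZMod 2)
        (B : Type*) [CStarAlgebra B] (u : PresentedGroup (rels M b) →* unitary B),
        IsFull (PresentedGroup (rels M b)) u → IsEmpty (A →⋆ₐ[ℂ] B) := by
  refine ⟨GG 1, GG 0, fun A _ p hp => ⟨?_, fun m n M b B _ u hu => ⟨fun ψ => ?_⟩⟩⟩
  · let e := Matrix.toEuclideanCLM (n := Fin 4) (𝕜 := ℂ)
    obtain ⟨φ, -⟩ := hp.univ _ (fun g h => e (Q g h))
      ⟨fun g h => by rw [← map_mul, Q_sq], fun g h => by rw [← map_star, Q_star],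
        fun g => by rw [← map_sum, Q_row, map_one], fun h => by rw [← map_sum, Q_col, map_one],
        fun g h g' h' c => by rw [← map_mul, Q_orth _ _ _ _ c, map_zero]⟩
    exact φ.toRingHom.domain_nontrivial
  · obtain ⟨χ, -⟩ := hu.univ ℂ 1
    exact no_char (fun g h => χ (ψ (p g h)))
      (fun h => by rw [← map_sum, ← map_sum, hp.rel.col, map_one, map_one])
      (fun g h g' h' c => by rw [← map_mul, ← map_mul, hp.rel.orth _ _ _ _ c, map_zero, map_zero])

end Pool.Agent.Results.MP_3b70de_al.No
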